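import Pool.Agent.H15.TG.Targets

/-! Row CKP of `tga_modules`. -/

set_option autoImplicit false

namespace Pool.Agent.H65.TG

open MvPolynomial Pool.Agent.H2.ST Pool.Agent.H15.TG

/-- the weights of all but one of the primes are independent -/
theorem ckp_rel {d : ℕ} (ψ : Fin (d + 1) → Fin d → ℤ) (a : Fin (d + 1) → ℕ)
    (ha : ∀ i, 0 < a i)
    (rl : ∀ e : Fin (d + 1) → ℤ, ∑ i, e i • ψ i = 0 → ∃ N : ℤ, ∀ i, e i = N * (a i : ℤ))
    (i : Fin (d + 1)) (v : Fin d → ℤ) (hv : ∑ t, v t • ψ (i.succAbove t) = 0) : v = 0 := by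
  obtain ⟨N, hN⟩ := rl (i.insertNth 0 v) (by
    rw [Fin.sum_univ_succAbove _ i, Fin.insertNth_apply_same, zero_smul, zero_add]
    simpa [Fin.insertNth_apply_succAbove] using hv)
  have h0 := hN i
  rw [Fin.insertNth_apply_same] at h0
  have hN0 : N = 0 := by
    rcases mul_eq_zero.1 h0.symm with h | h
    · exact h
    · have := ha i
      exfalso
      have h1 : a i = 0 := by exact_mod_cast h
      omega
  funext t
  have h2 := hN (i.succAbove t)
  rw [Fin.insertNth_apply_succAbove, hN0, zero_mul] at h2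
  exact h2

/-- the determinant of the weights -/
theorem ckp_det {k : Type} [Field k] [CharZero k] {d : ℕ} (χ : Fin d → Fin d → ℤ)
    (h : ∀ v : Fin d → ℤ, ∑ t, v t • χ t = 0 → v = 0) :
    (Matrix.of fun s t => ((χ s t : ℤ) : k)).det ≠ 0 := by
  have h1 : (Matrix.of χ).det ≠ 0 := by
    intro h0
    obtain ⟨v, hv0, hv⟩ := Matrix.exists_vecMul_eq_zero_iff.2 h0
    apply hv0
    apply h
    funext t
    have := congrFun hv t
    rw [Finset.sum_apply]
    simpa [Matrix.vecMul, dotProduct] using this
  have h2 : (Matrix.of fun s t => ((χ s t : ℤ) : k)) = (Int.castRingHom k).mapMatrix (Matrix.of χ) := by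
    ext s t
    simp
  rw [h2, ← RingHom.map_det]
  intro h3
  apply h1
  have h4 : ((Matrix.of χ).det : k) = 0 := h3
  exact_mod_cast h4

/-- elements algebraic modulo a prime ideal are congruent to constants -/
theorem ckp_alg {k A : Type} [Field k] [IsAlgClosed k] [CommRing A] [Algebra k A] (J : Ideal A)
    (hJ : J.IsPrime) (y : A) (h : ¬ Imod k J (fun _ : Unit => y)) :
    ∃ c : k, y - algebraMap k A c ∈ J := by
  unfold Imod at h
  push Not at h
  obtain ⟨P, hP, hP0⟩ := h
  let p : Polynomial k := MvPolynomial.pUnitAlgEquiv k P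
  have hp0 : p ≠ 0 := by
    intro h0
    apply hP0
    have : MvPolynomial.pUnitAlgEquiv k P = 0 := h0
    exact (map_eq_zero_iff _ (MvPolynomial.pUnitAlgEquiv k).injective).1 this
  have hP1 : P = (MvPolynomial.pUnitAlgEquiv k).symm p := by
    simp only [p, AlgEquiv.symm_apply_apply]
  have hev : (aeval (fun _ : Unit => y)) P = Polynomial.aeval y p := by
    rw [hP1]
    have : ((aeval (fun _ : Unit => y)).comp
        (MvPolynomial.pUnitAlgEquiv k).symm.toAlgHom : Polynomial k →ₐ[k] A) =
        Polynomial.aeval y := by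
      apply Polynomial.algHom_ext
      simp [MvPolynomial.pUnitAlgEquiv]
    exact DFunLike.congr_fun this p
  rw [hev] at hP
  have hs := (IsAlgClosed.splits p).eq_prod_roots
  rw [hs, map_mul, Polynomial.aeval_C, map_multiset_prod] at hP
  rcases hJ.mem_or_mem hP with h1 | h1
  · exfalso
    have hu : IsUnit (algebraMap k A p.leadingCoeff) :=
      (IsUnit.mk0 _ (Polynomial.leadingCoeff_ne_zero.2 hp0)).map _
    exact hJ.ne_top (Ideal.eq_top_of_isUnit_mem _ h1 hu)
  · rw [Ideal.IsPrime.multiset_prod_mem_iff_exists_mem hJ] at h1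
    obtain ⟨x, hx, hxJ⟩ := h1
    rw [Multiset.map_map, Multiset.mem_map] at hx
    obtain ⟨r, _, hr⟩ := hx
    refine ⟨r, ?_⟩
    rw [← hr] at hxJ
    simpa using hxJ

theorem pf_CKP (hAI1 : T_AI1) (hAI2 : T_AI2) (hAI3 : T_AI3) (hPPC : T_PPC) : T_CKP := by
  intro k _ _ _ m d W K H f π ψ a c0 h i y hyK hyW hy
  have hc := hPPC k m d W K H f π ψ a c0 h
  set J : Ideal (Pol k m) := Ideal.span {π i} with hJdef
  have hJ : J.IsPrime := (Ideal.span_singleton_prime (h.pp i).ne_zero).2 (h.pp i)
  have hmem : ∀ x, x ∈ J ↔ π i ∣ x := fun x => Ideal.mem_span_singleton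
  by_cases hI : Imod k J (fun _ : Unit => y)
  · exfalso
    -- weights
    have hrel : ∀ v : Fin d → ℤ, ∑ t, v t • ψ (i.succAbove t) = 0 → v = 0 :=
      ckp_rel ψ a h.ap h.rl i
    have hli : LinearIndependent ℤ (fun t : Fin d => ψ (i.succAbove t)) := by
      rw [Fintype.linearIndependent_iff]
      intro g hg t
      exact congrFun (hrel g hg) t
    have hJh : ∀ x ∈ J, ∀ b, cmp h.toGr x b ∈ J := by
      intro x hx b
      rw [hmem] at hx ⊢
      obtain ⟨z, rfl⟩ := hx
      have := cmp_mul_of_mem h.toGr (h.wp i) z (b - ψ i)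
      rw [sub_add_cancel] at this
      rw [mul_comm (π i) z, this]
      exact dvd_mul_left _ _
    have hI2 := hAI3 k (Pol k m) (Fin d → ℤ) Unit (Fin d) W h.toGr J (fun _ => y)
      (fun t => π (i.succAbove t)) (fun t => ψ (i.succAbove t)) hJ hJh (fun _ => hyW)
      (fun t => h.wp _) (fun t ht => h.na i (i.succAbove t) (Fin.succAbove_ne i t).symm
        ((hmem _).1 ht)) hli hI
    -- an element moved by `π i`
    obtain ⟨z, hzK, hz⟩ : ∃ z ∈ K, ¬ π i ∣ br (π i) z := by
      by_contra hcon
      push Not at hcon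
      obtain ⟨c, hc'⟩ := h.cn (π i) (mem_Cf.1 (h.hp i)).1 hcon
      have h1 := h.pp i
      rw [hc'] at h1
      have hc0 : c ≠ 0 := by
        intro h0
        rw [h0, C_0] at h1
        exact h1.ne_zero rfl
      exact h1.not_unit ((IsUnit.mk0 c hc0).map C)
    let D : Fin d ⊕ Unit → Derivation k (Pol k m) (Pol k m) :=
      Sum.elim (fun t => ad (π (i.succAbove t))) (fun _ => ad (π i))
    let Z : Fin d ⊕ Unit → Pol k m := Sum.elim H (fun _ => z)
    have hD : ∀ s, ∃ l, ∀ x, D s x = br (π l) x := by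
      rintro (t | u)
      · exact ⟨i.succAbove t, fun x => ad_apply _ _⟩
      · exact ⟨i, fun x => ad_apply _ _⟩
    have hDJ : ∀ s, ∀ x ∈ J, D s x ∈ J := by
      intro s x hx
      obtain ⟨l, hl⟩ := hD s
      rw [hl, hmem]
      rw [hmem] at hx
      obtain ⟨q, rfl⟩ := hx
      rw [br_mul, hc l i, mul_zero, add_zero]
      exact dvd_mul_right _ _
    have hDy : ∀ s j, D s ((Sum.elim (fun _ : Unit => y) fun t => π (i.succAbove t)) j) ∈ J := by
      intro s j
      obtain ⟨l, hl⟩ := hD s
      rw [hl, hmem]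
      rcases j with j | j
      · exact hy l
      · simp only [Sum.elim_inr]
        rw [hc]
        exact dvd_zero _
    have hHπ : ∀ l t, br (π l) (H t) = -(C ((ψ l t : ℤ) : k) * π l) := by
      intro l t
      rw [br_anti, h.eu t (ψ l) (π l) (mem_Cf.1 (h.hp l)).1 (h.wp l), MvPolynomial.smul_eq_C_mul]
    have hdet : (Matrix.of fun s t => D s (Z t)).det ∉ J := by
      intro hmemJ
      have h1 := Ideal.Quotient.eq_zero_iff_mem.2 hmemJ
      rw [RingHom.map_det] at h1
      haveI : IsDomain (Pol k m ⧸ J) := Ideal.Quotient.isDomain J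
      have h2 : (Ideal.Quotient.mk J).mapMatrix (Matrix.of fun s t => D s (Z t)) =
          Matrix.fromBlocks
            (Matrix.of fun s t : Fin d => Ideal.Quotient.mk J (-π (i.succAbove s)) *
              (Matrix.of fun s t : Fin d => algebraMap k (Pol k m ⧸ J)
                ((ψ (i.succAbove s) t : ℤ) : k)) s t)
            (Matrix.of fun s _ => Ideal.Quotient.mk J (D (Sum.inl s) z)) 0
            (Matrix.of fun _ _ => Ideal.Quotient.mk J (br (π i) z)) := by
        ext s t
        rcases s with s | s <;> rcases t with t | t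
        · simp only [RingHom.mapMatrix_apply, Matrix.map_apply, Matrix.of_apply,
            Matrix.fromBlocks_apply₁₁]
          simp only [D, Z, Sum.elim_inl, ad_apply]
          rw [hHπ, map_neg, map_mul, map_neg]
          have : Ideal.Quotient.mk J (C ((ψ (i.succAbove s) t : ℤ) : k)) =
              algebraMap k (Pol k m ⧸ J) ((ψ (i.succAbove s) t : ℤ) : k) := rfl
          rw [this]
          ring
        · simp [Z]
        · simp only [RingHom.mapMatrix_apply, Matrix.map_apply, Matrix.of_apply,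
            Matrix.fromBlocks_apply₂₁]
          simp only [D, Z, Sum.elim_inl, Sum.elim_inr, ad_apply]
          rw [hHπ, Matrix.zero_apply, Ideal.Quotient.eq_zero_iff_mem, hmem]
          exact (dvd_mul_left _ _).neg_right
        · simp [D, Z, ad_apply]
      rw [h2, Matrix.det_fromBlocks_zero₂₁] at h1
      rcases mul_eq_zero.1 h1 with h3 | h3
      · rw [Matrix.det_mul_column] at h3
        rcases mul_eq_zero.1 h3 with h4 | h4
        · rw [Finset.prod_eq_zero_iff] at h4
          obtain ⟨s, _, hs⟩ := h4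
          rw [Ideal.Quotient.eq_zero_iff_mem, hmem, dvd_neg] at hs
          exact h.na i (i.succAbove s) (Fin.succAbove_ne i s).symm hs
        · have h5 : (Matrix.of fun s t : Fin d => algebraMap k (Pol k m ⧸ J)
              ((ψ (i.succAbove s) t : ℤ) : k)) = (algebraMap k (Pol k m ⧸ J)).mapMatrix
              (Matrix.of fun s t => ((ψ (i.succAbove s) t : ℤ) : k)) := by
            ext s t
            simp
          rw [h5, ← RingHom.map_det] at h4
          exact ckp_det (fun t => ψ (i.succAbove t)) hrel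
            ((map_eq_zero_iff _ (algebraMap k (Pol k m ⧸ J)).injective).1 h4)
      · rw [Matrix.det_unique, Matrix.of_apply, Ideal.Quotient.eq_zero_iff_mem, hmem] at h3
        exact hz h3
    have hI3 := hAI1 k (Pol k m) _ _ J _ Z D hJ hDJ hDy hdet hI2
    have hI4 := hAI2 k (Pol k m) _ (π i) _ (h.pp i) hI3
    have hcard := h.tr _ _ (fun s => by
      rcases s with ((s | s) | (s | s)) | s
      · exact hyK
      · exact (mem_Cf.1 (h.hp _)).1
      · exact h.hK s
      · exact hzK
      · exact (mem_Cf.1 (h.hp _)).1) hI4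
    simp only [Fintype.card_sum, Fintype.card_unit, Fintype.card_fin] at hcard
    omega
  · obtain ⟨c, hc'⟩ := ckp_alg J hJ y hI
    exact ⟨c, (hmem _).1 hc'⟩

end Pool.Agent.H65.TG
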