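import Pool.Agent.H15.TG.Targets

/-! Row KNG of `tga_modules`. -/

set_option autoImplicit false

namespace Pool.Agent.H65.TG

open MvPolynomial Pool.Agent.H2.ST Pool.Agent.H15.TG

theorem kng_ne {k : Type} [Field k] {m d : ℕ} {W : (Fin d → ℤ) → Submodule k (Pol k m)}
    {K : Subalgebra k (Pol k m)} {y : Fin m ⊕ Fin m → Pol k m} {w : Fin m → Fin d → ℤ}
    {κ : Fin m ⊕ Fin m → Pol k m} (h : Kd W K y w κ) (i : Fin m) (hi : w i ≠ 0) :
    κ (Sum.inl i) ≠ 0 ∧ κ (Sum.inr i) ≠ 0 := by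
  constructor
  · intro h0
    have h1 := (h.kl i hi).2.2 (y (Sum.inr i))
    rw [h0, zero_br, map_zero, h.ad'.lr, if_pos rfl] at h1
    exact zero_ne_one h1
  · intro h0
    have h1 := (h.kr i hi).2.2 (y (Sum.inl i))
    rw [h0, zero_br, map_zero, br_anti, map_neg, h.ad'.lr, if_pos rfl] at h1
    exact zero_ne_one (neg_eq_zero.1 h1.symm).symm

theorem pf_KNG (hKRL : T_KRL) : T_KNG := by
  intro k _ m d W K y w κ h
  have h1 := fun i hi => kng_ne h i hi
  have h2 : ∀ i, w i ≠ 0 → Oc W K (w i) ∧ Oc W K (-w i) := fun i hi =>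
    ⟨⟨κ (Sum.inl i), (h.kl i hi).1, (h.kl i hi).2.1, (h1 i hi).1⟩,
      ⟨κ (Sum.inr i), (h.kr i hi).1, (h.kr i hi).2.1, (h1 i hi).2⟩⟩
  refine ⟨h1, h2, ?_, ?_⟩
  · rintro χ ⟨g, hgK, hgW, hg0⟩
    have h3 : ∃ α : Fin m ⊕ Fin m →₀ ℕ, wtm w α = χ := by
      by_contra hcon
      push Not at hcon
      exact hg0 (((hKRL k m (Fin d → ℤ) W y w h.toPGr h.ad' χ g hgW).1) hcon)
    obtain ⟨α, hα⟩ := h3
    classical
    let q : Fin m → Pol k m := fun i =>
      if w i = 0 then 1 else κ (Sum.inr i) ^ (α (Sum.inl i)) * κ (Sum.inl i) ^ (α (Sum.inr i))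
    refine ⟨∏ i, q i, ?_, ?_, ?_⟩
    · refine Subalgebra.prod_mem _ fun i _ => ?_
      by_cases hi : w i = 0
      · simp only [q, hi, if_true]
        exact Subalgebra.one_mem _
      · simp only [q, hi, if_false]
        exact K.mul_mem (K.pow_mem (h.kr i hi).1 _) (K.pow_mem (h.kl i hi).1 _)
    · have h4 : ∀ i, q i ∈ W (-(((α (Sum.inl i) : ℤ) - (α (Sum.inr i) : ℤ)) • w i)) := by
        intro i
        by_cases hi : w i = 0
        · simp only [q, hi, if_true, smul_zero, neg_zero]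
          exact h.one
        · simp only [q, hi, if_false]
          have h5 := mul_mem_gr h.toGr (pow_mem_gr h.toGr (h.kr i hi).2.1 (α (Sum.inl i)))
            (pow_mem_gr h.toGr (h.kl i hi).2.1 (α (Sum.inr i)))
          have h6 : α (Sum.inl i) • (-w i) + α (Sum.inr i) • w i =
              -(((α (Sum.inl i) : ℤ) - (α (Sum.inr i) : ℤ)) • w i) := by
            rw [sub_smul, natCast_zsmul, natCast_zsmul, smul_neg]
            abel
          rwa [h6] at h5
      have h7 := prod_mem_gr h.toGr Finset.univ _ q (fun i _ => h4 i)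
      rw [Finset.sum_neg_distrib] at h7
      rw [← hα]
      exact h7
    · rw [Finset.prod_ne_zero_iff]
      intro i _
      by_cases hi : w i = 0
      · simp only [q, hi, if_true]
        exact one_ne_zero
      · simp only [q, hi, if_false]
        exact mul_ne_zero (pow_ne_zero _ (h1 i hi).2) (pow_ne_zero _ (h1 i hi).1)
  · intro l hl
    apply h.sp
    intro i
    by_cases hi : w i = 0
    · simp [hi]
    · exact hl _ (h2 i hi).1

end Pool.Agent.H65.TG
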