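import Pool.Agent.H15.TG.Targets

/-! Row PHR of `tga_modules`. -/

set_option autoImplicit false

namespace Pool.Agent.H65.TG

open MvPolynomial Pool.Agent.H2.ST Pool.Agent.H15.TG

theorem prod_br {k : Type} [Field k] {m : ℕ} {ι : Type} [DecidableEq ι] (t : Finset ι)
    (g : ι → Pol k m) (s : Pol k m) :
    br (∏ i ∈ t, g i) s = ∑ i ∈ t, (∏ j ∈ t.erase i, g j) * br (g i) s := by
  induction t using Finset.induction_on with
  | empty =>
    rw [Finset.prod_empty, Finset.sum_empty, br_anti, br_one, neg_zero]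
  | insert i t hi ih =>
    rw [Finset.prod_insert hi, mul_br, ih, Finset.sum_insert hi, Finset.erase_insert hi,
      Finset.mul_sum, add_comm]
    congr 1
    refine Finset.sum_congr rfl fun j hj => ?_
    have hne : i ≠ j := fun h => hi (h ▸ hj)
    rw [Finset.erase_insert_of_ne hne, Finset.prod_insert (fun h => hi (Finset.mem_of_mem_erase h)),
      mul_assoc]

theorem pow_br {k : Type} [Field k] {m : ℕ} (f g : Pol k m) (n : ℕ) :
    br (f ^ n) g = n * f ^ (n - 1) * br f g := by
  rw [br_anti, br_pow, br_anti f g]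
  ring

theorem phr1 {k : Type} [Field k] {m d : ℕ} (π : Fin (d + 1) → Pol k m)
    (a : Fin (d + 1) → ℕ) (c0 : k) (ha : ∀ i, 0 < a i) (s : Pol k m) :
    (∏ j, π j) * br (C c0 * ∏ i, π i ^ a i) s = (C c0 * ∏ i, π i ^ a i) * phi π a s := by
  rw [mul_br, C_br, mul_zero, add_zero, prod_br]
  unfold phi
  rw [Finset.mul_sum, Finset.mul_sum, Finset.mul_sum]
  refine Finset.sum_congr rfl fun i _ => ?_
  have e1 : ∏ j, π j = π i * ∏ j ∈ Finset.univ.erase i, π j :=
    (Finset.mul_prod_erase Finset.univ π (Finset.mem_univ i)).symm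
  have e2 : ∏ j, π j ^ a j = π i ^ a i * ∏ j ∈ Finset.univ.erase i, π j ^ a j :=
    (Finset.mul_prod_erase Finset.univ (fun i => π i ^ a i) (Finset.mem_univ i)).symm
  rw [pow_br, e1, e2]
  have h1 : π i ^ a i = π i * π i ^ (a i - 1) := by
    rw [← pow_succ', Nat.sub_add_cancel (ha i)]
  rw [h1]
  have h2 : (C ((a i : ℕ) : k) : Pol k m) = ((a i : ℕ) : Pol k m) := map_natCast C (a i)
  rw [h2]
  ring

theorem pf_PHR : T_PHR := by
  intro k _ _ _ m d W K H f π ψ a c0 h
  have e1 : ∀ s : Pol k m, (∏ j, π j) * br f s = f * phi π a s := by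
    intro s
    rw [h.fe]
    exact phr1 π a c0 h.ap s
  refine ⟨e1, ?_, ?_, ?_, ?_⟩
  · intro s s'
    unfold phi
    rw [← Finset.sum_add_distrib]
    refine Finset.sum_congr rfl fun i _ => ?_
    rw [br_add, mul_add]
  · intro p s hp
    unfold phi
    rw [Finset.mul_sum]
    refine Finset.sum_congr rfl fun i _ => ?_
    rw [br_mul, hp i, mul_zero, add_zero]
    ring
  · intro s hs
    have h1 := e1 s
    rw [(mem_Cf.1 hs).2, mul_zero] at h1
    rcases mul_eq_zero.1 h1.symm with h2 | h2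
    · exact absurd h2 h.fn
    · exact h2
  · intro χ s hs
    unfold phi
    refine Submodule.sum_mem _ fun i _ => ?_
    have h1 : (C ((a i : ℕ) : k) : Pol k m) ∈ W 0 := by
      have := algebraMap_mem_gr h.toGr ((a i : ℕ) : k)
      rwa [MvPolynomial.algebraMap_eq] at this
    have h2 := prod_mem_gr h.toGr (Finset.univ.erase i) ψ π (fun j _ => h.wp j)
    have h3 := h.pbr _ _ _ _ (h.wp i) hs
    have h4 := mul_mem_gr h.toGr (mul_mem_gr h.toGr h1 h2) h3
    have h5 : 0 + ∑ j ∈ Finset.univ.erase i, ψ j + (ψ i + χ) = χ + ∑ i, ψ i := by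
      rw [← Finset.add_sum_erase Finset.univ ψ (Finset.mem_univ i)]
      abel
    rwa [h5] at h4

end Pool.Agent.H65.TG
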